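import Pool.Agent.helper22.RG9.Spec

/-!
# Row rg9:GRU (MP_a2a22c_al): the elements of the root subgroups are quasi-unipotent
-/

set_option autoImplicit false

namespace Pool.Agent.RG9

open Matrix Pool.Agent.H48SL Pool.Agent.UG

theorem GRU (hQUN : QUN_stmt) (hLGF : LGF_stmt) : GRU_stmt := by
  intro n m hm X hX i k hik
  obtain ⟨j, hj⟩ : ∃ j : Fin m, j ∉ ({i, k} : Finset (Fin m)) := by
    by_contra h
    push Not at h
    have h1 : (Finset.univ : Finset (Fin m)) ⊆ {i, k} := fun j _ => h j
    have h2 := Finset.card_le_card h1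
    have h3 := Finset.card_le_two (a := i) (b := k)
    rw [Finset.card_univ, Fintype.card_fin] at h2
    omega
  rw [Finset.mem_insert, Finset.mem_singleton, not_or] at hj
  obtain ⟨hji, hjk⟩ := hj
  obtain ⟨-, hmul, hinv, -, -, -, hone, -⟩ := hLGF n
  have hab : ∀ x ∈ X i k, ∀ y ∈ X i k, x * y = y * x := hX.comm i k i k hik hik (Ne.symm hik) hik
  have hg := hX.gen i j k (Ne.symm hji) hjk hik
  intro g hgX
  have hgX' := hgX
  rw [hg] at hgX'
  induction hgX' using Subgroup.closure_induction with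
  | mem c hc =>
    obtain ⟨x, hx, y, hy, hxy⟩ := hc
    have hcX : c ∈ X i k := by
      rw [hg]
      exact Subgroup.subset_closure ⟨x, hx, y, hy, hxy⟩
    exact hQUN n x y c hxy (hX.comm i k i j hik (Ne.symm hji) (Ne.symm hik) (Ne.symm hji) c hcX x hx)
      (hX.comm i k j k hik hjk (Ne.symm hjk) hik c hcX y hy)
  | one =>
    rw [one_pow]
    exact hone
  | mul g h hg' hh' ihg ihh =>
    rw [← hg] at hg' hh'
    have hc : g * h = h * g := hab g hg' h hh'
    have hc1 : Commute g h := hc
    rw [hc1.mul_pow]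
    exact (hmul _ _ (ihg hg') (ihh hh') (hc1.pow_pow _ _).eq).1
  | inv g hg' ihg =>
    rw [← hg] at hg'
    rw [inv_pow]
    exact (hinv _ (ihg hg')).1

end Pool.Agent.RG9

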