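import Pool.Agent.helper22.RG9.Spec3

/-!
# Row rg9:ANL (MP_a2a22c_al)
-/

set_option autoImplicit false

namespace Pool.Agent.RG9

open Matrix Pool.Agent.H48SL Pool.Agent.UG

theorem ANL_prod {n : ℕ} (S : Submodule ℚ (MQ n)) (l : List (MQ n)) (h : ∀ X ∈ l, X ∈ S) : l.prod ∈ S ^ l.length := by
  induction l with
  | nil =>
    rw [List.prod_nil, List.length_nil, pow_zero]
    exact Submodule.one_le.1 le_rfl
  | cons a l ih =>
    rw [List.prod_cons, List.length_cons, pow_succ']
    exact Submodule.mul_mem_mul (h a List.mem_cons_self) (ih fun X hX => h X (List.mem_cons_of_mem _ hX))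

theorem ANL_of {n : ℕ} (S : Submodule ℚ (MQ n)) (K : ℕ) (h : S ^ K = 0) : ANil S := by
  refine ⟨K, fun l hl hK => ?_⟩
  have h1 : (l.take K).prod ∈ S ^ (l.take K).length := ANL_prod S _ fun X hX => hl X (List.mem_of_mem_take hX)
  rw [List.length_take, min_eq_left hK, h] at h1
  have h2 : (l.take K).prod = 0 := h1
  rw [← List.prod_take_mul_prod_drop l K, h2, zero_mul]

theorem ANL_to {n : ℕ} (S : Submodule ℚ (MQ n)) (h : ANil S) : ∃ K, S ^ K = 0 := by
  obtain ⟨N, hN⟩ := h
  refine ⟨N, ?_⟩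
  have h0 : S ^ N ≤ ⊥ := by
    rw [Submodule.pow_eq_span_pow_set, Submodule.span_le]
    intro x hx
    obtain ⟨f, hf⟩ := Set.mem_pow.1 hx
    have h1 : x = 0 := by
      rw [← hf]
      refine hN _ ?_ (by rw [List.length_ofFn])
      intro X hX
      obtain ⟨i, hi⟩ := List.mem_ofFn.1 hX
      rw [← hi]
      exact (f i).2
    exact h1
  exact le_bot_iff.1 h0

theorem ANL_mono {n : ℕ} {a b c d : Submodule ℚ (MQ n)} (h1 : a ≤ b) (h2 : c ≤ d) : a * c ≤ b * d :=
  Submodule.mul_le.2 fun _ hx _ hy => Submodule.mul_mem_mul (h1 hx) (h2 hy)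

theorem ANL_comm {n : ℕ} {T b : Submodule ℚ (MQ n)} (h : T * b ≤ b * T) (k : ℕ) : T ^ k * b ≤ b * T ^ k := by
  induction k with
  | zero => rw [pow_zero, one_mul, mul_one]
  | succ k ih =>
    calc T ^ (k + 1) * b = T ^ k * (T * b) := by rw [pow_succ, mul_assoc]
      _ ≤ T ^ k * (b * T) := ANL_mono le_rfl h
      _ = (T ^ k * b) * T := by rw [mul_assoc]
      _ ≤ (b * T ^ k) * T := ANL_mono ih le_rfl
      _ = b * T ^ (k + 1) := by rw [mul_assoc, pow_succ]

theorem ANL_pow {n : ℕ} {R b : Submodule ℚ (MQ n)} (h : R * b ≤ b * R) (k : ℕ) : (b * R) ^ k ≤ b ^ k * R ^ k := by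
  induction k with
  | zero => rw [pow_zero, pow_zero, pow_zero, one_mul]
  | succ k ih =>
    calc (b * R) ^ (k + 1) = (b * R) ^ k * (b * R) := by rw [pow_succ]
      _ ≤ (b ^ k * R ^ k) * (b * R) := ANL_mono ih le_rfl
      _ = b ^ k * (R ^ k * b) * R := by simp only [mul_assoc]
      _ ≤ b ^ k * (b * R ^ k) * R := ANL_mono (ANL_mono le_rfl (ANL_comm h k)) le_rfl
      _ = b ^ (k + 1) * R ^ (k + 1) := by rw [pow_succ, pow_succ]; simp only [mul_assoc]

theorem ANL_pmono {n : ℕ} {a b : Submodule ℚ (MQ n)} (h : a ≤ b) (k : ℕ) : a ^ k ≤ b ^ k := by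
  induction k with
  | zero => rw [pow_zero, pow_zero]
  | succ k ih => rw [pow_succ, pow_succ]; exact ANL_mono ih h

theorem ANL_sub {n : ℕ} (b c : Submodule ℚ (MQ n)) (N M : ℕ) (hb : b ^ M = 0) (hc : c ^ N = 0)
    (h : c * b ≤ b * c + b) : (b + c) ^ (N * M) = 0 := by
  obtain ⟨T, hT⟩ : ∃ T : Submodule ℚ (MQ n), T = 1 + b + c := ⟨_, rfl⟩
  have h1T : 1 ≤ T := by rw [hT, add_assoc]; exact le_sup_left
  have hbT : b ≤ T := by rw [hT]; exact le_sup_of_le_left le_sup_right
  have hcT : c ≤ T := by rw [hT]; exact le_sup_right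
  have hTb : T * b ≤ b * T := by
    rw [hT]
    have e : (1 + b + c) * b = b + b * b + c * b := by
      rw [add_mul, add_mul, one_mul]
    rw [e, mul_add, mul_add, mul_one]
    refine sup_le (sup_le ?_ ?_) (h.trans (sup_le ?_ ?_))
    · exact le_sup_of_le_left le_sup_left
    · exact le_sup_of_le_left le_sup_right
    · exact le_sup_right
    · exact le_sup_of_le_left le_sup_left
  have hkey : ∀ k : ℕ, (b + c) ^ k ≤ c ^ k + b * T ^ k := by
    intro k
    induction k with
    | zero => rw [pow_zero, pow_zero]; exact le_sup_left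
    | succ k ih =>
      have hck : c ^ k ≤ T ^ k := ANL_pmono hcT k
      have hT1 : T ^ k ≤ T ^ (k + 1) := by
        rw [pow_succ]
        calc T ^ k = T ^ k * 1 := (mul_one _).symm
          _ ≤ T ^ k * T := ANL_mono le_rfl h1T
      calc (b + c) ^ (k + 1) = (b + c) * (b + c) ^ k := by rw [pow_succ']
        _ ≤ (b + c) * (c ^ k + b * T ^ k) := ANL_mono le_rfl ih
        _ = b * c ^ k + b * (b * T ^ k) + (c * c ^ k + c * (b * T ^ k)) := by rw [add_mul, mul_add, mul_add]
        _ ≤ c ^ (k + 1) + b * T ^ (k + 1) := by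
          refine sup_le (sup_le ?_ ?_) (sup_le ?_ ?_)
          · exact le_sup_of_le_right (ANL_mono le_rfl (hck.trans hT1))
          · refine le_sup_of_le_right (ANL_mono le_rfl ?_)
            rw [pow_succ']
            exact ANL_mono hbT le_rfl
          · rw [← pow_succ']; exact le_sup_left
          · refine le_sup_of_le_right ?_
            calc c * (b * T ^ k) ≤ T * (b * T ^ k) := ANL_mono hcT le_rfl
              _ = (T * b) * T ^ k := by rw [mul_assoc]
              _ ≤ (b * T) * T ^ k := ANL_mono hTb le_rfl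
              _ = b * T ^ (k + 1) := by rw [pow_succ', mul_assoc]
  have hN := hkey N
  rw [hc, zero_add] at hN
  have h2 : (b + c) ^ (N * M) ≤ b ^ M * (T ^ N) ^ M := by
    rw [pow_mul]
    exact (ANL_pmono hN M).trans (ANL_pow (ANL_comm hTb N) M)
  rw [hb, zero_mul] at h2
  exact le_bot_iff.1 h2

/-- **Row ANL.** -/
theorem ANL : ANL_stmt := by
  intro n b c hb hc h
  obtain ⟨M, hM⟩ := ANL_to b hb
  obtain ⟨N, hN⟩ := ANL_to c hc
  refine ANL_of _ (N * M) (ANL_sub b c N M hM hN ?_)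
  refine Submodule.mul_le.2 fun C hC B hB => ?_
  have h1 : C * B = B * C + (C * B - B * C) := by rw [add_sub_cancel]
  rw [h1]
  exact Submodule.add_mem_sup (Submodule.mul_mem_mul hB hC) (h C hC B hB)

end Pool.Agent.RG9

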